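import Pool.Agent.H.MP_a0a602_an.E

set_option autoImplicit false
open Metric MeasureTheory ComplexConjugate

namespace Pool.Agent.Results.MP_a0a602_an.Q1

def ConvexUnivalent (f : ℂ → ℂ) : Prop :=
  DifferentiableOn ℂ f (ball 0 1) ∧ Set.InjOn f (ball 0 1) ∧ f 0 = 0 ∧ deriv f 0 = 1 ∧
    Convex ℝ (f '' ball 0 1)

noncomputable def omitted (f : ℂ → ℂ) (r : ℝ) : ENNReal :=
  volume (ball (0 : ℂ) r \ f '' ball 0 1)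

def Extremal (r : ℝ) (f : ℂ → ℂ) : Prop :=
  ConvexUnivalent f ∧ ∀ g, ConvexUnivalent g → omitted g r ≤ omitted f r

def HalfPlane (Ω : Set ℂ) : Prop := ∃ (u : ℂ) (c : ℝ), u ≠ 0 ∧ Ω = {w | (u * w).re < c}

def SymSector (Ω : Set ℂ) : Prop := ∃ (v u : ℂ) (α t : ℝ), u ≠ 0 ∧ v + t * u = 0 ∧
  Ω = {w | w ≠ v ∧ |Complex.arg ((w - v) / u)| < α}

def ArcTangents (r : ℝ) (Ω : Set ℂ) : Prop := ∃ p q : ℂ, ‖p‖ = r ∧ ‖q‖ = r ∧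
  frontier Ω ⊆ sphere 0 r ∪ {w | (w * conj p).re = r ^ 2} ∪ {w | (w * conj q).re = r ^ 2}

theorem result : ∃ r : ℝ, 1 / 2 < r ∧ r < 1 ∧ (∃ f, Extremal r f) ∧
    ∀ f, Extremal r f → ¬ HalfPlane (f '' ball 0 1) ∧ ¬ SymSector (f '' ball 0 1) ∧
      ¬ ArcTangents r (f '' ball 0 1) :=
  ⟨0.999, by norm_num, by norm_num, H.MP_a0a602_an.exists_extremal _, fun _ h =>
    ⟨fun ⟨_, _, h1, h2⟩ => H.MP_a0a602_an.not_half h h1 h2,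
      fun ⟨_, _, _, _, h1, h2, h3⟩ => H.MP_a0a602_an.not_sector h h1 h2 h3,
      fun ⟨_, _, h1, h2, h3⟩ => H.MP_a0a602_an.not_arc h rfl h1 h2 h3⟩⟩

end Pool.Agent.Results.MP_a0a602_an.Q1
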